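import Pool.Agent.MP_66cee2_co.D.A3
import Pool.Agent.MP_66cee2_co.D.Bi
import Pool.Agent.MP_66cee2_co.D.Div
import Pool.Agent.MP_66cee2_co.D.Drop
import Pool.Agent.MP_66cee2_co.D.DegT
import Pool.Agent.MP_66cee2_co.O.SpecO

/-
An edge whose first member takes its values in a space of dimension at most `d + 1` is orthogonal.
-/

namespace Pool.Agent.MP_66cee2_co.D

open Matrix Pool.Agent.MP_66cee2_co.X Pool.Agent.MP_66cee2_co.XI

namespace A2px

variable {d n : ℕ}

theorem lz_sum {ι : Type} [Fintype ι] (g : ι → ℝ) (v : ι → Ix n → ℝ) (y : Ix n → ℝ) :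
    lz (∑ i, g i • v i) y = ∑ i, g i * lz (v i) y := by
  simp only [lz, sum_dotProduct, smul_dotProduct, smul_eq_mul]

theorem lz_sub (a b y : Ix n → ℝ) : lz (a - b) y = lz a y - lz b y := by
  simp only [lz, sub_dotProduct]

theorem lz_sub' (y a b : Ix n → ℝ) : lz y (a - b) = lz y a - lz y b := by
  rw [lz_comm, lz_sub, lz_comm a, lz_comm b]

/-- the values of the homogeneous components lie in the same space. -/
theorem hc_mem (W : Submodule ℝ (Ix n → ℝ)) (Q : Ix n → MP d) (h : ∀ z, evv Q z ∈ W) (k : ℕ)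
    (z : E d) : evv (hc k Q) z ∈ W := by
  by_contra hn
  obtain ⟨φ, h1, h2⟩ := Submodule.exists_le_ker_of_notMem hn
  obtain ⟨c, hφ⟩ : ∃ c : Ix n → ℝ, ∀ v, φ v = ∑ a, c a * v a :=
    ⟨fun a => φ fun j => if a = j then 1 else 0, fun v => by
      rw [LinearMap.pi_apply_eq_sum_univ φ v]
      exact Finset.sum_congr rfl fun a _ => by rw [smul_eq_mul, mul_comm]⟩
  have h0 : (∑ a, c a • Q a) = 0 := by
    refine XI.ev_ext fun x => ?_
    have h3 : φ (evv Q x) = 0 := h2 (h x)
    rw [hφ] at h3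
    rw [XI.ev_sum, XI.ev_zero, ← h3]
    exact Finset.sum_congr rfl fun a _ => XI.ev_smul _ _ _
  have h4 := congrArg (fun p => ev (MvPolynomial.homogeneousComponent k p) z) h0
  simp only [map_sum, map_smul, map_zero, XI.ev_sum, XI.ev_smul, XI.ev_zero] at h4
  exact h1 ((hφ _).trans h4)

theorem deg_drop {p : MP d} {N : ℕ} (h : p.totalDegree ≤ N + 1) :
    (p - MvPolynomial.homogeneousComponent (N + 1) p).totalDegree ≤ N := by
  refine Finset.sup_le fun m hm => ?_
  rw [MvPolynomial.mem_support_iff, MvPolynomial.coeff_sub,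
    MvPolynomial.coeff_homogeneousComponent] at hm
  by_cases h1 : m.degree = N + 1
  · rw [if_pos h1, sub_self] at hm
    exact absurd rfl hm
  · rw [if_neg h1, sub_zero] at hm
    have h2 := (MvPolynomial.le_totalDegree (MvPolynomial.mem_support_iff.2 hm)).trans h
    have h3 : (m.sum fun _ e => e) = m.degree := rfl
    omega

theorem exists_top {Q : Ix n → MP d} (h : ∃ a, Q a ≠ 0) :
    ∃ (D : ℕ) (x : E d), (∀ a, (Q a).totalDegree ≤ D) ∧ evv (hc D Q) x ≠ 0 := by
  classical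
  obtain ⟨a₀, h₀⟩ := h
  obtain ⟨a, ha, hm⟩ := Finset.exists_max_image (Finset.univ.filter fun a => Q a ≠ 0)
    (fun a => (Q a).totalDegree) ⟨a₀, by simpa using h₀⟩
  have ha' : Q a ≠ 0 := by simpa using ha
  obtain ⟨x, hx⟩ := DegTx.exists_ne (ExhIA.top_ne ha')
  refine ⟨(Q a).totalDegree, x, fun b => ?_, fun e => hx (congrFun e a)⟩
  by_cases hb : Q b = 0
  · simp [hb]
  · exact hm b (by simpa using hb)

theorem det_zero (W : Submodule ℝ (Ix n → ℝ)) (hW : Module.finrank ℝ W ≤ d + 1)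
    {F F' w : Ix n → ℝ} (hF : F ∈ W) (hF0 : F ≠ 0) (hw : w ∈ W) (hw0 : lz w F' ≠ 0)
    (hFF : lz F F' = 0) (xs ys : Fin d → Ix n → ℝ) (hx : ∀ a, xs a ∈ W)
    (hx0 : ∀ a, lz (xs a) F' = 0) (hy : ∀ b, lz F (ys b) = 0) :
    (Matrix.of fun a b => lz (xs a) (ys b)).det = 0 := by
  let v : Fin d ⊕ Bool → W :=
    Sum.elim (fun a => ⟨xs a, hx a⟩) fun t => cond t ⟨F, hF⟩ ⟨w, hw⟩
  have hdep : ¬ LinearIndependent ℝ v := fun h => by
    have := h.fintype_card_le_finrank
    simp only [Fintype.card_sum, Fintype.card_fin, Fintype.card_bool] at this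
    omega
  obtain ⟨g, hg, s, hs⟩ := Fintype.not_linearIndependent_iff.1 hdep
  have hg' : ∑ i, g i • (v i : Ix n → ℝ) = 0 := by
    have := congrArg (fun t : W => (t : Ix n → ℝ)) hg
    simpa using this
  have key : ∀ y, ∑ a, g (Sum.inl a) * lz (xs a) y +
      (g (Sum.inr true) * lz F y + g (Sum.inr false) * lz w y) = 0 := fun y => by
    have h := lz_sum g (fun i => (v i : Ix n → ℝ)) y
    rw [hg', Fintype.sum_sum_type, Fintype.sum_bool] at h
    exact h.symm.trans (by simp [lz])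
  have h1 : g (Sum.inr false) = 0 := by
    have h := key F'
    rw [Finset.sum_eq_zero fun a _ => by rw [hx0, mul_zero], hFF, mul_zero, zero_add,
      zero_add] at h
    exact (mul_eq_zero.1 h).resolve_right hw0
  refine Matrix.exists_vecMul_eq_zero_iff.1 ⟨fun a => g (Sum.inl a), fun h0 => ?_, ?_⟩
  · have h2 : ∀ a, g (Sum.inl a) = 0 := fun a => congrFun h0 a
    rw [Fintype.sum_sum_type, Fintype.sum_bool, h1, zero_smul, add_zero,
      Finset.sum_eq_zero fun a _ => by rw [h2, zero_smul], zero_add] at hg'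
    have h3 : g (Sum.inr true) = 0 := (smul_eq_zero.1 hg').resolve_right hF0
    rcases s with a | t
    · exact hs (h2 a)
    · cases t
      · exact hs h1
      · exact hs h3
  · funext b
    have h := key (ys b)
    rw [hy, h1, mul_zero, zero_mul, add_zero, add_zero] at h
    simpa [Matrix.vecMul, dotProduct] using h

theorem core (hd : 3 ≤ d) (Q Q' : Ix n → MP d) (W : Submodule ℝ (Ix n → ℝ))
    (hW : Module.finrank ℝ W ≤ d + 1) (hQ : ∀ z, evv Q z ∈ W) (hE : EdgeId Q Q') {D D' : ℕ}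
    (hD : ∀ a, (Q a).totalDegree ≤ D) (hD' : ∀ a, (Q' a).totalDegree ≤ D') {x y : E d}
    (hx : evv (hc D Q) x ≠ 0) {w : Ix n → ℝ} (hw : w ∈ W)
    (hw0 : lz w (evv (hc D' Q') y) ≠ 0) : Ort Q Q' := by
  rcases sDrop sDiv sBi d n Q Q' D D' (by omega) hE hD hD' with h | ⟨M, A, h1, h2, h3, h4⟩
  · exact h.1
  refine absurd (sA3 d A hd h1 fun j hj xs ys => ?_) h2
  obtain ⟨a, b, hab, ha, hb, h5⟩ := h4 j hj
  have h6 := det_zero W hW (hc_mem W Q hQ D x) hx hw hw0 (h3 D D' (by omega) x y)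
    (fun i => evv (hc a Q) (xs i)) (fun i => evv (hc b Q') (ys i))
    (fun i => hc_mem W Q hQ a _) (fun i => h3 a D' (by omega) _ _)
    (fun i => h3 D b (by omega) _ _)
  have h7 : (Matrix.of fun i k => ev2 (Cc A j) (xs i) (ys k)) =
      -Matrix.of fun i k => lz (evv (hc a Q) (xs i)) (evv (hc b Q') (ys k)) := by
    ext i k
    simp [h5]
  rw [h7, Matrix.det_neg, h6, mul_zero]

end A2px

open A2px in
/-- values in a space of dimension at most `d + 1` force orthogonality. -/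
theorem sA2p (d n : ℕ) (Q Q' : Ix n → MP d) (W : Submodule ℝ (Ix n → ℝ)) (hd : 3 ≤ d)
    (hW : Module.finrank ℝ W ≤ d + 1) (hQ : ∀ z, evv Q z ∈ W) (hE : EdgeId Q Q') :
    Ort Q Q' := by
  by_cases h0 : ∃ a, Q a ≠ 0
  swap
  · exact Dropx.ort_of (Dropx.Kp_left fun a => not_not.1 fun h => h0 ⟨a, h⟩)
  obtain ⟨D, x, hD, hx⟩ := exists_top h0
  have main : ∀ (N : ℕ) (R : Ix n → MP d), (∀ a, (R a).totalDegree ≤ N) → EdgeId Q R →
      Ort Q R := by
    intro N
    induction N with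
    | zero =>
      intro R hR hE
      by_cases h : ∃ y, ∃ w ∈ W, lz w (evv (hc 0 R) y) ≠ 0
      · obtain ⟨y, w, hw, hw0⟩ := h
        exact core hd Q R W hW hQ hE hD hR hx hw hw0
      · intro z z'
        have e : hc 0 R = R := funext fun a => by
          have := MvPolynomial.totalDegree_eq_zero_iff_eq_C.1 (Nat.le_zero.1 (hR a))
          rw [hc, MvPolynomial.homogeneousComponent_zero, ← this]
        rw [e] at h
        exact not_not.1 fun k => h ⟨z', _, hQ z, k⟩
    | succ N ih =>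
      intro R hR hE
      by_cases h : ∃ y, ∃ w ∈ W, lz w (evv (hc (N + 1) R) y) ≠ 0
      · obtain ⟨y, w, hw, hw0⟩ := h
        exact core hd Q R W hW hQ hE hD hR hx hw hw0
      · have h1 : ∀ z y, lz (evv Q z) (evv (R - hc (N + 1) R) y) = lz (evv Q z) (evv R y) := by
          intro z y
          have e : evv (R - hc (N + 1) R) y = evv R y - evv (hc (N + 1) R) y :=
            funext fun a => XI.ev_sub _ _ _
          rw [e, lz_sub', not_not.1 fun k => h ⟨y, _, hQ z, k⟩, sub_zero]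
        intro z z'
        rw [← h1]
        exact ih _ (fun a => deg_drop (hR a)) (fun u w hw => (h1 u _).trans (hE u w hw)) z z'
  exact main (Finset.univ.sup fun a => (Q' a).totalDegree) Q'
    (fun a => Finset.le_sup (f := fun a => (Q' a).totalDegree) (Finset.mem_univ a)) hE

end Pool.Agent.MP_66cee2_co.D

theorem Pool.Agent.MP_66cee2_co.O.sA2p : Pool.Agent.MP_66cee2_co.O.SA2p :=
  Pool.Agent.MP_66cee2_co.D.sA2p
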