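import Pool.Agent.MP_66cee2_co.H96.Lor
import Pool.Agent.MP_66cee2_co.H35.G4
import Pool.Agent.MP_66cee2_co.H35.KS
import Pool.Agent.MP_66cee2_co.H35.Nu
import Pool.Agent.MP_66cee2_co.H44.Main

/-! The centre map for maps into a space of dimension at most five. -/

namespace Pool.Agent.MP_66cee2_co.H96

open Module Finset Pool.Agent.MP_66cee2_co.H44 Pool.Agent.MP_66cee2_co.H35
open scoped RealInnerProductSpace

variable {E F : Type*} [NormedAddCommGroup E] [InnerProductSpace ℝ E] [FiniteDimensional ℝ E]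
  [NormedAddCommGroup F] [InnerProductSpace ℝ F] [FiniteDimensional ℝ F] {g : E → F}

theorem cc (hE : 4 ≤ finrank ℝ E) (hF : finrank ℝ F ≤ 5) (hg : Pres g) (c : E) {e e' : E}
    (he : ‖e‖ = 1) (he' : ‖e'‖ = 1) (h : ⟪e, e'⟫ = 0) (a : half g c e = 0)
    (b : half g c e' = 0) : False :=
  no_cc hF hg (gadget4 hE) c he he' h a b

theorem no_long (hE : 4 ≤ finrank ℝ E) (hF : finrank ℝ F ≤ 5) (hg : Pres g) (c e : E)
    (he : ‖e‖ = 1) : ‖half g c e‖ ^ 2 ≤ 1 := by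
  by_contra hL
  exact ks hE he (fun v => half g c v = 0)
    (fun v w hv hw _ _ vw a b => cc hE hF hg c hv hw vw a b)
    (fun v w z hv hw hz vu wu zu vw vz wz =>
      long_col hF hg c he hv hw hz vw vz wz vu wu zu (not_le.1 hL))

theorem mm (hE : 4 ≤ finrank ℝ E) (hF : finrank ℝ F ≤ 5) (hg : Pres g) (c : E) {e e' : E}
    (he : ‖e‖ = 1) (he' : ‖e'‖ = 1) (h : ⟪e, e'⟫ = 0) (a : half g c e ≠ 0)
    (a' : ‖half g c e‖ ^ 2 ≠ 1) (b : half g c e' ≠ 0) (b' : ‖half g c e'‖ ^ 2 ≠ 1) : False :=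
  no_mm hE hF hg (gadget4 hE) c (no_long hE hF hg c) he he' h a a' b b'

/-- Among three orthonormal lines one is full. -/
theorem full_of_three (hE : 4 ≤ finrank ℝ E) (hF : finrank ℝ F ≤ 5) (hg : Pres g) (c : E)
    {x y z : E} (hx : ‖x‖ = 1) (hy : ‖y‖ = 1) (hz : ‖z‖ = 1) (xy : ⟪x, y⟫ = 0)
    (xz : ⟪x, z⟫ = 0) (yz : ⟪y, z⟫ = 0) :
    ‖half g c x‖ ^ 2 = 1 ∨ ‖half g c y‖ ^ 2 = 1 ∨ ‖half g c z‖ ^ 2 = 1 := by
  by_contra hn
  simp only [not_or] at hn
  obtain ⟨a, b, d⟩ := hn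
  by_cases cx : half g c x = 0
  · exact mm hE hF hg c hy hz yz (fun e => cc hE hF hg c hx hy xy cx e) b
      (fun e => cc hE hF hg c hx hz xz cx e) d
  by_cases cy : half g c y = 0
  · exact mm hE hF hg c hx hz xz cx a (fun e => cc hE hF hg c hy hz yz cy e) d
  · exact mm hE hF hg c hx hy xy cx a cy b

theorem exists_orth_three (hE : 4 ≤ finrank ℝ E) (x : E) : ∃ v : Fin 3 → E, Orthonormal ℝ v ∧
    ∀ i, ⟪v i, x⟫ = 0 := by
  classical
  let S : Submodule ℝ E := Submodule.span ℝ {x}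
  have hS : finrank ℝ S ≤ 1 := by
    simpa using finrank_span_le_card (R := ℝ) ({x} : Set E)
  have h2 : 3 ≤ finrank ℝ Sᗮ := by
    have := S.finrank_add_finrank_orthogonal
    omega
  let b := stdOrthonormalBasis ℝ Sᗮ
  refine ⟨fun i => (b (Fin.castLE h2 i) : E), ?_, fun i => ?_⟩
  · exact (b.orthonormal.comp _ (Fin.castLE_injective h2)).comp_linearIsometry Sᗮ.subtypeₗᵢ
  · exact Submodule.inner_left_of_mem_orthogonal (Submodule.mem_span_singleton_self x)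
      (b (Fin.castLE h2 i)).2

/-- A full line orthogonal to a given vector. -/
theorem exists_full1 (hE : 4 ≤ finrank ℝ E) (hF : finrank ℝ F ≤ 5) (hg : Pres g) (c x : E) :
    ∃ e, ‖e‖ = 1 ∧ ⟪e, x⟫ = 0 ∧ ‖half g c e‖ ^ 2 = 1 := by
  obtain ⟨v, hv, hx⟩ := exists_orth_three hE x
  rcases full_of_three hE hF hg c (hv.1 0) (hv.1 1) (hv.1 2) (hv.2 (by decide))
    (hv.2 (by decide)) (hv.2 (by decide)) with h | h | h
  exacts [⟨_, hv.1 _, hx _, h⟩, ⟨_, hv.1 _, hx _, h⟩, ⟨_, hv.1 _, hx _, h⟩]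

theorem exists_ctr4 (hE : 4 ≤ finrank ℝ E) (hF : finrank ℝ F ≤ 5) (hg : Pres g) :
    ∃ o, IsCtr g o := by
  choose e₀ h1 _ h2 using fun c => exists_full1 hE hF hg c 0
  refine ⟨fun c => mid g c (e₀ c), fun c e he => ?_⟩
  obtain ⟨e', h3, h4, h6⟩ := exists_full1 hE hF hg c e
  have a' : mid g c e' = mid g c (e₀ c) :=
    nu_eq hE (fun v => ‖half g c v‖ ^ 2 = 1) (fun v => half g c v = 0)
      (fun v => half g c v ≠ 0 ∧ ‖half g c v‖ ^ 2 ≠ 1) (mid g c) (fun v _ => by tauto)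
      (fun v w hv hw vw a b => cc hE hF hg c hv hw vw a b)
      (fun v w hv hw vw a b => mm hE hF hg c hv hw vw a.1 a.2 b.1 b.2)
      (fun v w hv hw vw a b => by
        have := (pair hg c hv hw vw).2.2
        rw [a, b] at this
        simpa [sub_eq_zero] using this) h3 (h1 c) h6 (h2 c)
  have := (pair hg c he h3 (by rwa [real_inner_comm])).2
  rw [h6, a'] at this
  simpa using this.symm

/-- The centre map and a full line orthogonal to any vector. -/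
theorem ctr_full (hE : 4 ≤ finrank ℝ E) (hF : finrank ℝ F ≤ 5) (hg : Pres g) {o : E → F}
    (ho : IsCtr g o) (c x : E) : ∃ e, ‖e‖ = 1 ∧ ⟪e, x⟫ = 0 ∧ mid g c e = o c := by
  obtain ⟨e, h1, h2, h3⟩ := exists_full1 hE hF hg c x
  have := (ho c e h1).1
  rw [h3] at this
  exact ⟨e, h1, h2, by simpa [sub_eq_zero] using this⟩

end Pool.Agent.MP_66cee2_co.H96
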