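import Pool.Agent.MP_66cee2_co.H44.Center

/-! Images of four-dimensional cross-polytopes in five-space. -/

namespace Pool.Agent.MP_66cee2_co.H96

open Module Finset Pool.Agent.MP_66cee2_co.H44
open scoped RealInnerProductSpace

variable {E F : Type*} [NormedAddCommGroup E] [InnerProductSpace ℝ E] [FiniteDimensional ℝ E]
  [NormedAddCommGroup F] [InnerProductSpace ℝ F] [FiniteDimensional ℝ F]

/-- The relations between half diagonals and midpoints. -/
def Rel (H M : Fin 4 → F) : Prop := ∀ i k, i ≠ k → ⟪H i, H k⟫ = 0 ∧ ⟪M i - M k, H i⟫ = 0 ∧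
  ‖M i - M k‖ ^ 2 = (1 - ‖H i‖ ^ 2) + (1 - ‖H k‖ ^ 2)

omit [FiniteDimensional ℝ F] in
theorem Rel.orth {H M : Fin 4 → F} (P : Rel H M) (i k l : Fin 4) : ⟪M k - M l, H i⟫ = 0 := by
  have : ∀ k, ⟪M i - M k, H i⟫ = 0 := fun k => by
    by_cases h : i = k
    · simp [h]
    · exact (P i k h).2.1
  have e : M k - M l = (M i - M l) - (M i - M k) := by abel
  rw [e, inner_sub_left, this, this, sub_zero]

theorem six_a {H M : Fin 4 → F} (P : Rel H M) (h : ∀ i, H i ≠ 0) (h0 : ‖H 0‖ ^ 2 ≠ 1)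
    (h1 : ‖H 1‖ ^ 2 ≠ 1) : 6 ≤ finrank ℝ F := by
  let β : Fin 2 → Fin 4 := ![0, 1]
  have b2 : ∀ l, β l ≠ 2 := by decide
  have b3 : ∀ l, β l ≠ 3 := by decide
  have bi : ∀ l l', l ≠ l' → β l ≠ β l' := by decide
  have h2 := card_le_of_dual (ι := Fin 4 ⊕ Fin 2)
    (Sum.elim H fun l => M (β l) - M 2) (Sum.elim H fun l => M (β l) - M 3)
    (by
      rintro (i | l) (k | l') hik
      · exact (P i k fun e => hik (by rw [e])).1
      · simp only [Sum.elim_inl, Sum.elim_inr]; rw [real_inner_comm]; exact P.orth _ _ _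
      · exact P.orth _ _ _
      · simp only [Sum.elim_inr]
        have hl : l ≠ l' := fun e => hik (by rw [e])
        rw [inner_four, (P _ _ (b3 l)).2.2, (P _ _ (b2 l').symm).2.2, (P _ _ (bi l l' hl)).2.2,
          (P 2 3 (by decide)).2.2]
        ring)
    (by
      rintro (i | l)
      · simpa using h i
      · simp only [Sum.elim_inr]
        rw [inner_four, (P _ _ (b3 l)).2.2, (P _ _ (b2 l).symm).2.2, sub_self,
          (P 2 3 (by decide)).2.2]
        intro e
        have : ‖H (β l)‖ ^ 2 ≠ 1 := by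
          fin_cases l
          · exact h0
          · exact h1
        apply this
        simp only [norm_zero] at e
        linarith)
  simpa using h2

theorem six_b {H M : Fin 4 → F} (P : Rel H M) (n0 : H 0 ≠ 0) (n1 : H 1 ≠ 0) (n2 : H 2 ≠ 0)
    (h0 : ‖H 0‖ ^ 2 < 1) (h1 : ‖H 1‖ ^ 2 < 1) (h2 : ‖H 2‖ ^ 2 ≤ 1) (h3 : ‖H 3‖ ^ 2 < 1) :
    6 ≤ finrank ℝ F := by
  let α : Fin 3 → Fin 4 := ![0, 1, 2]
  let β : Fin 3 → Fin 4 := ![0, 1, 3]
  have ai : ∀ l l', l ≠ l' → α l ≠ α l' := by decide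
  have b2 : ∀ l, β l ≠ 2 := by decide
  have bi : ∀ l l', l ≠ l' → β l ≠ β l' := by decide
  let t : Fin 4 → ℝ := fun i => 1 - ‖H i‖ ^ 2
  have tp : ∀ l, 0 < t (β l) := fun l => by
    fin_cases l
    · exact sub_pos.2 h0
    · exact sub_pos.2 h1
    · exact sub_pos.2 h3
  have t2 : 0 ≤ t 2 := sub_nonneg.2 h2
  let w : Fin 3 → F := fun l => M (β l) - M 2
  have G : ∀ l k, ⟪w l, w k⟫ = t 2 + if l = k then t (β l) else 0 := fun l k => by
    by_cases e : l = k
    · subst e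
      simp only [w, t, if_true]
      rw [real_inner_self_eq_norm_sq, (P _ _ (b2 l)).2.2]; ring
    · simp only [w, t, if_neg e]
      rw [inner_sub_eq, (P _ _ (b2 l)).2.2, (P _ _ (b2 k)).2.2, (P _ _ (bi l k e)).2.2]; ring
  let S : ℝ := ∑ j, (t (β j))⁻¹
  have hS : 0 ≤ S := Finset.sum_nonneg fun j _ => (inv_pos.2 (tp j)).le
  let W : F := ∑ j, (t (β j))⁻¹ • w j
  have GW : ∀ l, ⟪w l, W⟫ = t 2 * S + 1 := fun l => by
    simp only [W, S, inner_sum, inner_smul_right, G, mul_add, Finset.sum_add_distrib, mul_ite,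
      mul_zero, Finset.sum_ite_eq, Finset.mem_univ, if_true, Finset.mul_sum]
    rw [inv_mul_cancel₀ (tp l).ne']
    congr 1
    exact Finset.sum_congr rfl fun j _ => mul_comm _ _
  have HW : ∀ i l, ⟪H i, w l⟫ = 0 := fun i l => by
    rw [real_inner_comm]; exact P.orth _ _ _
  have h6 := card_le_of_dual (ι := Fin 3 ⊕ Fin 3)
    (Sum.elim (fun l => H (α l)) w)
    (Sum.elim (fun l => H (α l)) fun k => (t 2 * S + 1) • w k - t 2 • W)
    (by
      rintro (i | l) (k | l') hik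
      · exact (P _ _ (ai i k fun e => hik (by rw [e]))).1
      · simp [W, inner_sub_right, inner_smul_right, inner_sum, HW]
      · exact P.orth _ _ _
      · have hl : l ≠ l' := fun e => hik (by rw [e])
        simp only [Sum.elim_inr, inner_sub_right, inner_smul_right, G, GW, if_neg hl]
        ring)
    (by
      rintro (i | l)
      · have : H (α i) ≠ 0 := by
          fin_cases i
          · exact n0
          · exact n1
          · exact n2
        simpa using this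
      · simp only [Sum.elim_inr, inner_sub_right, inner_smul_right, G, GW, if_true]
        have := mul_pos (by positivity : 0 < t 2 * S + 1) (tp l)
        intro e
        nlinarith)
  simpa using h6

variable {g : E → F}

omit [FiniteDimensional ℝ E] [FiniteDimensional ℝ F] in
theorem rel_of (hg : Pres g) (c : E) {v : Fin 4 → E} (hv : Orthonormal ℝ v) :
    Rel (fun i => half g c (v i)) (fun i => mid g c (v i)) := fun i k h =>
  pair hg c (hv.1 i) (hv.1 k) (hv.2 h)

omit [FiniteDimensional ℝ E] in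
theorem on_four {a b x y : E} (ha : ‖a‖ = 1) (hb : ‖b‖ = 1) (hx : ‖x‖ = 1) (hy : ‖y‖ = 1)
    (ab : ⟪a, b⟫ = 0) (ax : ⟪a, x⟫ = 0) (ay : ⟪a, y⟫ = 0) (bx : ⟪b, x⟫ = 0) (by' : ⟪b, y⟫ = 0)
    (xy : ⟪x, y⟫ = 0) : Orthonormal ℝ ![a, b, x, y] := by
  refine ⟨fun i => by fin_cases i <;> simpa, fun i k h => ?_⟩
  fin_cases i <;> fin_cases k <;>
    first | exact absurd rfl h | assumption | (rw [real_inner_comm]; assumption)

omit [FiniteDimensional ℝ E] in
theorem no_cc (hF : finrank ℝ F ≤ 5) (hg : Pres g) (hG : Gadget E 2 5) (c : E) {e e' : E}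
    (he : ‖e‖ = 1) (he' : ‖e'‖ = 1) (h : ⟪e, e'⟫ = 0) (a : half g c e = 0)
    (b : half g c e' = 0) : False := by
  classical
  have hv : Orthonormal ℝ ![e, e'] := by
    refine ⟨fun i => by fin_cases i <;> simpa, fun i k hik => ?_⟩
    fin_cases i <;> fin_cases k <;>
      first | exact absurd rfl hik | assumption | (rw [real_inner_comm]; assumption)
  have := few_collapsed hg hG (by omega) c _ hv
  rw [Finset.filter_true_of_mem (fun i _ => by fin_cases i <;> assumption)] at this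
  simp at this

omit [FiniteDimensional ℝ E] in
/-- Three orthonormal lines orthogonal to a long line contain a collapsed line. -/
theorem long_col (hF : finrank ℝ F ≤ 5) (hg : Pres g) (c : E) {u v w z : E} (hu : ‖u‖ = 1)
    (hv : ‖v‖ = 1) (hw : ‖w‖ = 1) (hz : ‖z‖ = 1) (vw : ⟪v, w⟫ = 0) (vz : ⟪v, z⟫ = 0)
    (wz : ⟪w, z⟫ = 0) (vu : ⟪v, u⟫ = 0) (wu : ⟪w, u⟫ = 0) (zu : ⟪z, u⟫ = 0)
    (hL : 1 < ‖half g c u‖ ^ 2) : half g c v = 0 ∨ half g c w = 0 ∨ half g c z = 0 := by
  by_contra hn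
  simp only [not_or] at hn
  have P := rel_of hg c (on_four hv hw hz hu vw vz vu wz wu zu)
  have a := (pair hg c hv hu vu).2.2
  have b := (pair hg c hw hu wu).2.2
  have := six_a P (fun i => by
      fin_cases i
      · exact hn.1
      · exact hn.2.1
      · exact hn.2.2
      · intro e
        have e' : half g c u = 0 := e
        rw [e'] at hL
        norm_num at hL)
    (fun e => by
      have e' : ‖half g c v‖ ^ 2 = 1 := e
      nlinarith [sq_nonneg ‖mid g c v - mid g c u‖])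
    (fun e => by
      have e' : ‖half g c w‖ ^ 2 = 1 := e
      nlinarith [sq_nonneg ‖mid g c w - mid g c u‖])
  omega

/-- Without long lines there are no two orthogonal middle lines. -/
theorem no_mm (hE : 4 ≤ finrank ℝ E) (hF : finrank ℝ F ≤ 5) (hg : Pres g) (hG : Gadget E 2 5)
    (c : E) (hs : ∀ e, ‖e‖ = 1 → ‖half g c e‖ ^ 2 ≤ 1) {e e' : E} (he : ‖e‖ = 1)
    (he' : ‖e'‖ = 1) (h : ⟪e, e'⟫ = 0) (a : half g c e ≠ 0) (a' : ‖half g c e‖ ^ 2 ≠ 1)
    (b : half g c e' ≠ 0) (b' : ‖half g c e'‖ ^ 2 ≠ 1) : False := by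
  obtain ⟨v, hv, hv'⟩ := exists_orth_two e e' 2 hE
  have k : ∀ x y : E, ‖x‖ = 1 → ‖y‖ = 1 → ⟪x, y⟫ = 0 → ⟪x, e⟫ = 0 → ⟪x, e'⟫ = 0 → ⟪y, e⟫ = 0 →
      ⟪y, e'⟫ = 0 → half g c y = 0 → False := by
    intro x y hx hy xy xe xe' ye ye' hc
    have P := rel_of hg c (on_four he he' hx hy h (by rwa [real_inner_comm])
      (by rwa [real_inner_comm]) (by rwa [real_inner_comm]) (by rwa [real_inner_comm]) xy)
    have := six_b P a b (fun hx0 => no_cc hF hg hG c hx hy xy hx0 hc)
      (lt_of_le_of_ne (hs e he) a') (lt_of_le_of_ne (hs e' he') b') (hs x hx)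
      (by show ‖half g c y‖ ^ 2 < 1; rw [hc]; norm_num)
    omega
  have o01 : ⟪v 0, v 1⟫ = 0 := hv.2 (by decide)
  have o10 : ⟪v 1, v 0⟫ = 0 := hv.2 (by decide)
  by_cases c1 : half g c (v 1) = 0
  · exact k _ _ (hv.1 0) (hv.1 1) o01 (hv' 0).1 (hv' 0).2 (hv' 1).1 (hv' 1).2 c1
  by_cases c0 : half g c (v 0) = 0
  · exact k _ _ (hv.1 1) (hv.1 0) o10 (hv' 1).1 (hv' 1).2 (hv' 0).1 (hv' 0).2 c0
  have P := rel_of hg c (on_four he he' (hv.1 0) (hv.1 1) h
    (by rw [real_inner_comm]; exact (hv' 0).1) (by rw [real_inner_comm]; exact (hv' 1).1)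
    (by rw [real_inner_comm]; exact (hv' 0).2) (by rw [real_inner_comm]; exact (hv' 1).2) o01)
  have := six_a P (fun i => by fin_cases i <;> assumption) a' b'
  omega

end Pool.Agent.MP_66cee2_co.H96
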